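import Mathlib

/-!
# Riemann forms and endomorphisms in real coordinates (used for job JTransR)
-/

set_option autoImplicit false

namespace Pool.Agent.Y606.S4

open Matrix Module

section mat

variable {B : Type} [Fintype B] [DecidableEq B]

theorem eq_of_mulVec {K : Type*} [CommRing K] {M N : Matrix B B K}
    (h : ∀ x : B → K, M *ᵥ x = N *ᵥ x) : M = N :=
  Matrix.toLin'.injective (LinearMap.ext fun x => by rw [toLin'_apply, toLin'_apply, h x])

theorem eq_of_dot {K : Type*} [CommRing K] {M N : Matrix B B K}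
    (h : ∀ x y : B → K, x ⬝ᵥ (M *ᵥ y) = x ⬝ᵥ (N *ᵥ y)) : M = N := by
  ext i j
  have := h (Pi.single i 1) (Pi.single j 1)
  simpa using this

/-- Extension of scalars. -/
def up (M : Matrix B B ℚ) : Matrix B B ℝ := M.map (fun x : ℚ => (x : ℝ))

/-- Extension of scalars. -/
def cr (v : B → ℚ) : B → ℝ := fun i => ((v i : ℚ) : ℝ)

theorem up_cr (M : Matrix B B ℚ) (v : B → ℚ) : up M *ᵥ cr v = cr (M *ᵥ v) := by
  funext i
  simp [mulVec, dotProduct, up, cr]

theorem dot_cr (v w : B → ℚ) : cr v ⬝ᵥ cr w = ((v ⬝ᵥ w : ℚ) : ℝ) := by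
  simp [dotProduct, cr]

theorem single_cr (i : B) : cr (Pi.single i 1 : B → ℚ) = Pi.single i 1 := by
  funext j
  unfold cr
  by_cases h : j = i
  · subst h
    rw [Pi.single_eq_same, Pi.single_eq_same, Rat.cast_one]
  · rw [Pi.single_eq_of_ne h, Pi.single_eq_of_ne h, Rat.cast_zero]

/-- An endomorphism compatible with the complex structure commutes with it. -/
theorem comm_of_endo {T : Type} [AddCommGroup T] [Module ℂ T] {J : Matrix B B ℝ}
    (P : (B → ℝ) →ₗ[ℝ] T) (hinj : Function.Injective P)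
    (hJ : ∀ x, P (J *ᵥ x) = Complex.I • P x) (m : Matrix B B ℚ) (Ψ : T →ₗ[ℂ] T)
    (hΨ : ∀ y, Ψ (P (cr y)) = P (cr (m *ᵥ y))) : up m * J = J * up m := by
  have key : (Ψ.restrictScalars ℝ) ∘ₗ P = P ∘ₗ (mulVecLin (up m)) := by
    refine LinearMap.pi_ext' fun i => LinearMap.ext_ring ?_
    change Ψ (P (Pi.single i 1)) = P (up m *ᵥ Pi.single i 1)
    rw [← single_cr, hΨ, up_cr]
  have key' : ∀ x, Ψ (P x) = P (up m *ᵥ x) := fun x => LinearMap.congr_fun key x
  refine eq_of_mulVec fun x => hinj ?_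
  rw [← mulVec_mulVec, ← mulVec_mulVec, ← key', hJ, map_smul, key', hJ]

end mat

section form

variable {T : Type} [AddCommGroup T] [Module ℂ T] {Ψ : T → T → ℂ}
  (h1 : ∀ u', IsLinearMap ℂ fun u => Ψ u u')
  (h2 : ∀ u u', Ψ u' u = starRingEnd ℂ (Ψ u u'))

include h2 in
theorem im_anti (u v : T) : (Ψ u v).im = -(Ψ v u).im := by
  rw [h2 v u, Complex.conj_im]

include h1 in
theorem im_add_left (u u' v : T) : (Ψ (u + u') v).im = (Ψ u v).im + (Ψ u' v).im := by
  rw [(h1 v).map_add, Complex.add_im]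

include h1 in
theorem im_smul_left (r : ℝ) (u v : T) : (Ψ (r • u) v).im = r * (Ψ u v).im := by
  have := (h1 v).map_smul (r : ℂ) u
  rw [Complex.coe_smul, smul_eq_mul] at this
  rw [this, Complex.im_ofReal_mul]

include h1 in
theorem im_I_left (u v : T) : (Ψ (Complex.I • u) v).im = (Ψ u v).re := by
  rw [(h1 v).map_smul, smul_eq_mul]
  simp

include h1 h2 in
theorem im_I_right (u v : T) : (Ψ u (Complex.I • v)).im = -(Ψ u v).re := by
  rw [im_anti h2, im_I_left h1, h2 u v, Complex.conj_re]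

/-- The Riemann form in real coordinates. -/
def rf {B : Type} [Fintype B] [DecidableEq B] (Q : (B → ℝ) →ₗ[ℝ] T) :
    (B → ℝ) →ₗ[ℝ] (B → ℝ) →ₗ[ℝ] ℝ :=
  LinearMap.mk₂ ℝ (fun x y => (Ψ (Q x) (Q y)).im)
    (fun x x' y => by
      rw [map_add, im_add_left h1])
    (fun r x y => by
      rw [map_smul, im_smul_left h1, smul_eq_mul])
    (fun x y y' => by
      rw [im_anti h2, map_add, im_add_left h1, im_anti h2 (Q x) (Q y), im_anti h2 (Q x) (Q y')]
      ring)
    (fun r x y => by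
      rw [im_anti h2, map_smul, im_smul_left h1, im_anti h2 (Q x) (Q y), smul_eq_mul]
      ring)

theorem rf_apply {B : Type} [Fintype B] [DecidableEq B] (Q : (B → ℝ) →ₗ[ℝ] T) (x y : B → ℝ) :
    rf h1 h2 Q x y = (Ψ (Q x) (Q y)).im := rfl

include h1 h2 in
/-- The matrix of the Riemann form. -/
theorem rf_eq {B : Type} [Fintype B] [DecidableEq B] (Q : (B → ℝ) →ₗ[ℝ] T) (M : Matrix B B ℚ)
    (hM : ∀ i j, (Ψ (Q (cr (Pi.single i 1))) (Q (cr (Pi.single j 1)))).im = (M i j : ℝ))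
    (x y : B → ℝ) : (Ψ (Q x) (Q y)).im = x ⬝ᵥ (up M *ᵥ y) := by
  have e1 : LinearMap.toMatrix₂' ℝ (rf h1 h2 Q) = up M := by
    ext i j
    rw [LinearMap.toMatrix₂'_apply, rf_apply, ← single_cr, ← single_cr, hM]
    rfl
  have e2 := Matrix.toLinearMap₂'_toMatrix' (R := ℝ) (rf h1 h2 Q)
  rw [e1] at e2
  rw [← rf_apply h1 h2, ← e2, Matrix.toLinearMap₂'_apply']

include h1 h2 in
/-- The properties of the matrix of a Riemann form. -/
theorem rf_props {B : Type} [Fintype B] [DecidableEq B] {J : Matrix B B ℝ}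
    (h3 : ∀ u, u ≠ 0 → 0 < (Ψ u u).re)
    (Q : (B → ℝ) →ₗ[ℝ] T) (hinj : Function.Injective Q)
    (hJ : ∀ x, Q (J *ᵥ x) = Complex.I • Q x) (M : Matrix B B ℚ)
    (hM : ∀ i j, (Ψ (Q (cr (Pi.single i 1))) (Q (cr (Pi.single j 1)))).im = (M i j : ℝ)) :
    Mᵀ = -M ∧ Jᵀ * up M + up M * J = 0 ∧
      (∀ x : B → ℝ, x ≠ 0 → 0 < (J *ᵥ x) ⬝ᵥ (up M *ᵥ x)) := by
  have key := rf_eq h1 h2 Q M hM
  refine ⟨?_, ?_, fun x hx => ?_⟩
  · ext i j
    have e1 := hM j i
    have e2 := hM i j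
    rw [im_anti h2, e2] at e1
    rw [transpose_apply, Matrix.neg_apply]
    exact_mod_cast e1.symm
  · refine eq_of_dot fun x y => ?_
    have e1 : x ⬝ᵥ ((Jᵀ * up M) *ᵥ y) = (J *ᵥ x) ⬝ᵥ (up M *ᵥ y) := by
      rw [← mulVec_mulVec, dotProduct_mulVec x, vecMul_transpose]
    rw [add_mulVec, dotProduct_add, e1, ← mulVec_mulVec, ← key, ← key, hJ, hJ, im_I_left h1,
      im_I_right h1 h2, zero_mulVec, dotProduct_zero, add_neg_cancel]
  · rw [← key, hJ, im_I_left h1]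
    refine h3 _ fun h0 => hx ?_
    rw [← map_zero Q] at h0
    exact hinj h0

end form

end Pool.Agent.Y606.S4
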