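import Mathlib
import Pool.Agent.Y90.S.Jobs
import Pool.Agent.Y606.S4.Core

/-!
# Real multiplication: from abelian subvarieties to period matrices (job JTransR)
-/

set_option autoImplicit false

namespace Pool.Agent.Y606.S4

open Matrix Module Pool.Agent.W437.HC Pool.Agent.W437.HD Pool.Agent.W548.Odd Pool.Agent.TH504.CB
open Pool.Agent.H204R3.CM (IsHodge)
open Pool.Agent.W437.HP (cK cK_mul cK_one)
open Pool.Agent.Y90 Pool.Agent.Y90.S

theorem up_eq {B : Type} [Fintype B] [DecidableEq B] (M : Matrix B B ℚ) : up M = cK ℝ M := rfl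

theorem cR_up {B : Type} [Fintype B] [DecidableEq B] (M : Matrix B B ℚ) :
    (up M).map (fun x : ℝ => (x : ℂ)) = qm M := cK_R M

section

variable {a : ℕ} {Z : Matrix (Fin a) (Fin a) ℂ}

theorem DZ_real {m : Matrix (Fin a ⊕ Fin a) (Fin a ⊕ Fin a) ℚ} (h : up m * JR Z = JR Z * up m) :
    qm m * DZ Z = DZ Z * qm m := by
  have h3 := congrArg (fun M => M.map (fun x : ℝ => (x : ℂ))) h
  have h4 : (up m * JR Z).map (fun x : ℝ => (x : ℂ)) =
      (up m).map (fun x : ℝ => (x : ℂ)) * (JR Z).map (fun x : ℝ => (x : ℂ)) :=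
    Matrix.map_mul (f := Complex.ofRealHom)
  have h5 : (JR Z * up m).map (fun x : ℝ => (x : ℂ)) =
      (JR Z).map (fun x : ℝ => (x : ℂ)) * (up m).map (fun x : ℝ => (x : ℂ)) :=
    Matrix.map_mul (f := Complex.ofRealHom)
  beta_reduce at h3
  rw [h4, h5, cR_up] at h3
  unfold DZ
  rw [Matrix.mul_smul, Matrix.smul_mul, h3]

theorem DZ_inv {M : Matrix (Fin a ⊕ Fin a) (Fin a ⊕ Fin a) ℚ}
    (h : (JR Z)ᵀ * up M + up M * JR Z = 0) : (DZ Z)ᵀ * qm M + qm M * DZ Z = 0 := by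
  have h3 := congrArg (fun M => M.map (fun x : ℝ => (x : ℂ))) h
  have h4 : (up M * JR Z).map (fun x : ℝ => (x : ℂ)) =
      (up M).map (fun x : ℝ => (x : ℂ)) * (JR Z).map (fun x : ℝ => (x : ℂ)) :=
    Matrix.map_mul (f := Complex.ofRealHom)
  have h5 : ((JR Z)ᵀ * up M).map (fun x : ℝ => (x : ℂ)) =
      ((JR Z)ᵀ).map (fun x : ℝ => (x : ℂ)) * (up M).map (fun x : ℝ => (x : ℂ)) :=
    Matrix.map_mul (f := Complex.ofRealHom)
  have h6 : ((JR Z)ᵀ * up M + up M * JR Z).map (fun x : ℝ => (x : ℂ)) =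
      ((JR Z)ᵀ * up M).map (fun x : ℝ => (x : ℂ)) +
        (up M * JR Z).map (fun x : ℝ => (x : ℂ)) := by
    ext i j
    simp
  have h7 : (0 : Matrix (Fin a ⊕ Fin a) (Fin a ⊕ Fin a) ℝ).map (fun x : ℝ => (x : ℂ)) = 0 := by
    ext i j
    simp
  beta_reduce at h3
  rw [h6, h4, h5, cR_up, h7, Matrix.transpose_map] at h3
  unfold DZ
  rw [transpose_smul, Matrix.mul_smul, Matrix.smul_mul, ← smul_add, h3, smul_zero]

end

/-- JTransR. -/
theorem jTransR : JTransR := by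
  intro H T _ _ _ _ per a Z h ι π Ψ₁ Ψ₂ hπι g₁ g₂ k hr
  obtain ⟨E, A₀, ⟨Ψ, c1, c2, c3, c4⟩, b1, b2, b3⟩ := hr
  have hinj : Function.Injective ι := fun x y hxy => by
    rw [← hπι x, hxy, hπι]
  obtain ⟨P, I, hP1, hP2, hI1, hI2⟩ := h.cht.ex
  have hPi : Function.Injective P := Function.LeftInverse.injective hI1
  have hr₁ : ∀ (r : ℝ) t, Ψ₁ (r • t) = r • Ψ₁ t := fun r t => Ψ₁.map_smul_of_tower r t
  have hr₂ : ∀ (r : ℝ) t, Ψ₂ (r • t) = r • Ψ₂ t := fun r t => Ψ₂.map_smul_of_tower r t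
  have hsp : ∀ t : Fin a → ℂ, t ∈ Submodule.span ℝ (Set.range (perOne Z)) := by
    intro t
    rw [perOne_span h]
    trivial
  have hΨ : ∀ t, Ψ₂ (Ψ₁ t) = t := by
    intro t
    have ht := hsp t
    induction ht using Submodule.span_induction with
    | mem t ht =>
      obtain ⟨y, rfl⟩ := ht
      rw [g₁, g₂, hπι]
    | zero => rw [map_zero, map_zero]
    | add x y _ _ hx hy => rw [map_add, map_add, hx, hy]
    | smul r x _ hx => rw [hr₁, hr₂, hx]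
  have hΨi : Function.Injective Ψ₁ := Function.LeftInverse.injective hΨ
  -- the coordinates
  let Q : (Fin a ⊕ Fin a → ℝ) →ₗ[ℝ] T := (Ψ₁.restrictScalars ℝ) ∘ₗ P
  have hQ : ∀ x, Q x = Ψ₁ (P x) := fun x => rfl
  have hQi : Function.Injective Q := hΨi.comp hPi
  have hQJ : ∀ x, Q (JR Z *ᵥ x) = Complex.I • Q x := fun x => by
    rw [hQ, hQ, hP2, map_smul]
  have hQc : ∀ y, Q (cr y) = per (ι y) := fun y => by
    rw [hQ, ← g₁]
    exact congrArg Ψ₁ (hP1 y)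
  -- the matrices
  let M : Matrix (Fin a ⊕ Fin a) (Fin a ⊕ Fin a) ℚ := Matrix.of fun i j =>
    E (ι (Pi.single i 1)) (ι (Pi.single j 1))
  have hM : ∀ i j, (Ψ (Q (cr (Pi.single i 1))) (Q (cr (Pi.single j 1)))).im = (M i j : ℝ) := by
    intro i j
    rw [hQc, hQc, c4]
    rfl
  obtain ⟨m1, m2, m3⟩ := rf_props c1 c2 c3 Q hQi hQJ M hM
  have hE : ∀ x y, E (ι x) (ι y) = x ⬝ᵥ (M *ᵥ y) := by
    intro x y
    have e1 := rf_eq c1 c2 Q M hM (cr x) (cr y)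
    rw [hQc, hQc, c4, up_cr, dot_cr] at e1
    exact_mod_cast e1
  let e : (Fin a ⊕ Fin a → ℚ) ≃ₗ[ℚ] LinearMap.range ι := LinearEquiv.ofInjective ι hinj
  have he : ∀ y, (e y : H) = ι y := fun y => rfl
  let Φ : Matrix (Fin a ⊕ Fin a) (Fin a ⊕ Fin a) ℚ ≃ₗ[ℚ]
      (LinearMap.range ι →ₗ[ℚ] LinearMap.range ι) := Matrix.toLin'.trans e.conj
  have hΦ : ∀ N u, Φ N u = e (N *ᵥ e.symm u) := by
    intro N u
    change e.conj (Matrix.toLin' N) u = _
    rw [LinearEquiv.conj_apply_apply, Matrix.toLin'_apply]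
  have hΦe : ∀ N y, ((Φ N (e y) : LinearMap.range ι) : H) = ι (N *ᵥ y) := by
    intro N y
    rw [hΦ, LinearEquiv.symm_apply_apply, he]
  have hΦm : ∀ M N, Φ M ∘ₗ Φ N = Φ (M * N) := by
    intro M N
    refine LinearMap.ext fun u => ?_
    rw [LinearMap.comp_apply, hΦ, hΦ, hΦ, LinearEquiv.symm_apply_apply, mulVec_mulVec]
  -- endomorphisms
  have hend : ∀ N, IsEndo per (LinearMap.range ι) (Φ N) ↔ qm N * DZ Z = DZ Z * qm N := by
    intro N
    constructor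
    · rintro ⟨Ψ', hΨ'⟩
      refine DZ_real (comm_of_endo P hPi hP2 N (Ψ₂ ∘ₗ Ψ' ∘ₗ Ψ₁) fun y => ?_)
      have e1 : P (cr y) = perOne Z y := hP1 y
      have e2 : P (cr (N *ᵥ y)) = perOne Z (N *ᵥ y) := hP1 _
      rw [e1, e2, LinearMap.comp_apply, LinearMap.comp_apply, g₁, ← he, hΨ', hΦe, g₂, hπι]
    · intro hN
      obtain ⟨Ψ₃, h₅⟩ := h.cht.hom h.cht (R := N) (by rw [DJ_JR]; exact hN)
      refine ⟨Ψ₁.comp (Ψ₃.comp Ψ₂), fun u => ?_⟩
      obtain ⟨y, rfl⟩ := e.surjective u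
      rw [LinearMap.comp_apply, LinearMap.comp_apply, he, g₂, hπι, h₅, g₁, hΦe]
  have hmem : ∀ N, N ∈ A₀.comap Φ.toLinearMap ↔ Φ N ∈ A₀ := fun N => Iff.rfl
  refine ⟨M, A₀.comap Φ.toLinearMap, ⟨m1, DZ_inv m2, m3, fun N hN => ?_, fun N hN => ?_,
    fun N hN => ?_⟩, ?_⟩
  · exact (hend N).1 (b1 _ hN).1
  · refine eq_of_dot fun x y => ?_
    have e1 := (b1 _ hN).2 (e x) (e y)
    change E ((Φ N (e x) : LinearMap.range ι) : H) (e y : H) =
      E (e x : H) ((Φ N (e y) : LinearMap.range ι) : H) at e1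
    rw [hΦe, hΦe, he, he, hE, hE] at e1
    rw [← mulVec_mulVec, ← mulVec_mulVec, dotProduct_mulVec x, vecMul_transpose]
    exact e1
  · rw [hmem, b2 _ ((hend N).2 hN)]
    constructor
    · intro h1 b hb
      have e1 := h1 _ hb
      change Φ b ∘ₗ Φ N = Φ N ∘ₗ Φ b at e1
      rw [hΦm, hΦm] at e1
      exact Φ.injective e1
    · intro h1 b hb
      obtain ⟨b, rfl⟩ := Φ.surjective b
      have e1 := h1 b hb
      rw [hΦm, hΦm, e1]
  · have e1 : finrank ℚ (A₀.comap Φ.toLinearMap) = finrank ℚ A₀ := by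
      rw [Submodule.comap_equiv_eq_map_symm]
      exact LinearEquiv.finrank_map_eq Φ.symm A₀
    rw [e1, ← b3, LinearMap.finrank_range_of_inj hinj, finrank_fintype_fun_eq_card,
      Fintype.card_sum, Fintype.card_fin]
    ring

end Pool.Agent.Y606.S4
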